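import Mathlib
import Pool.Agent.X262.ProgP
import Pool.Agent.TH464.PO.QuadAP

set_option autoImplicit false

/-!
# Almost prime values of `n ^ 2 - 2` in arithmetic progressions
-/

namespace Pool.Agent.Results.MP_0b748d_nt.GapLawsInProgressions

open Finset Filter

/-- all prime factors of `n ^ 2 - 2` are larger than `X ^ (1 / r)` -/
def Good (X r n : ℕ) : Prop :=
  ∀ p : ℕ, p.Prime → (p : ℤ) ∣ (n : ℤ) ^ 2 - 2 → (X : ℝ) ^ (1 / (r : ℝ)) < p

open Classical in
/-- the number of the solutions of `x ^ 2 = 2` modulo `p` -/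
noncomputable def roots (p : ℕ) : ℕ := ((range p).filter (fun x : ℕ => (p : ℤ) ∣ (x : ℤ) ^ 2 - 2)).card

/-- the proportion of the classes `a` modulo `q` with `a ^ 2 - 2` prime to `q` -/
noncomputable def prop (q : ℕ) : ℝ := ∏ p ∈ q.primeFactors, (1 - (roots p : ℝ) / p)

/-- the expected density of the good integers in these classes -/
noncomputable def density (X r q : ℕ) : ℝ :=
  ∏ p ∈ (Icc 1 ⌊(X : ℝ) ^ (1 / (r : ℝ))⌋₊).filter (fun p => p.Prime ∧ ¬ p ∣ q),
    (1 - (roots p : ℝ) / p)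

/-- the truncated constant of the Bateman-Horn conjecture -/
noncomputable def series (X r : ℕ) : ℝ :=
  ∏ p ∈ (Icc 1 ⌊(X : ℝ) ^ (1 / (r : ℝ))⌋₊).filter Nat.Prime,
    (1 - (roots p : ℝ) / p) / (1 - 1 / (p : ℝ))

/-- the probability that a Poisson variable of mean `x` is `j` -/
noncomputable def poisson (x : ℝ) (j : ℕ) : ℝ := Real.exp (-x) * x ^ j / j.factorial

open Classical in
/-- the number of the elements of `S` in `(u, v]` -/
noncomputable def count (S : Set ℕ) (u v : ℕ) : ℕ := ((Ioc u v).filter (fun n => n ∈ S)).card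

/-- All intervals `(m - s, m + t]` with `s, t ≤ Y` of length at least `L / c` contain the right order
of elements of `S`. -/
def RightOrder (S : Set ℕ) (L c : ℝ) (Y m : ℕ) : Prop :=
  ∀ s t : ℕ, s ≤ Y → t ≤ Y → L ≤ c * (s + t) →
    c * (s + t) / L ≤ count S (m - s) (m + t) ∧ (count S (m - s) (m + t) : ℝ) ≤ (s + t) / (c * L)

/-- Up to `δ`, `S` has a constant density `lam / L` (`c ≤ lam ≤ 1 / c`) on both sides of `m` up to the
distance `2 ^ j`. -/
def ConstantDensity (S : Set ℕ) (L c δ : ℝ) (m j : ℕ) : Prop :=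
  ∃ lam : ℝ, c ≤ lam ∧ lam ≤ 1 / c ∧ ∀ s t : ℕ, s ≤ 2 ^ j → t ≤ 2 ^ j →
    |(count S (m - s) (m + t) : ℝ) - lam * (s + t) / L| ≤ δ * 2 ^ j / L

open Classical in
/-- the number of the scales `L ≤ 2 ^ j ≤ Y` without this property -/
noncomputable def badScales (S : Set ℕ) (L c δ : ℝ) (Y m : ℕ) : ℕ :=
  ((Finset.range (Nat.log 2 Y + 1)).filter (fun j => L ≤ (2 : ℝ) ^ j ∧
    ¬ ConstantDensity S L c δ m j)).card

/-- The elements of `S` that are not regular points of `S`. -/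
def Irregular (S : Set ℕ) (L c δ : ℝ) (B Y : ℕ) : Set ℕ :=
  {m | m ∈ S ∧ ¬ (RightOrder S L c Y m ∧ badScales S L c δ Y m ≤ B)}

open Pool.Agent.Y879.AP Pool.Agent.W123.RP Pool.Agent.H373R2.T7 Pool.Agent.TH464.PO
open Pool.Agent.Y879.GL Pool.Agent.W123.RU Pool.Agent.W123.RU.Poly Pool.Agent.X262.ProgP
open Pool.Agent.TH464.PW Polynomial

/-- the polynomial -/
noncomputable def F : Fin 1 → ℤ[X] := qs 1 0 (-2)

lemma Q_iff (p m : ℕ) : Q F p m ↔ (p : ℤ) ∣ (m : ℤ) ^ 2 - 2 := by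
  unfold F
  rw [qs_Q]
  rw [show (1 : ℤ) * (m : ℤ) ^ 2 + 0 * m + -2 = (m : ℤ) ^ 2 - 2 by ring]

lemma not_square : ¬ IsSquare ((0 : ℤ) ^ 2 - 4 * 1 * (-2)) := by
  rintro ⟨x, hx⟩
  have h1 : x * x = 8 := by linarith
  have h2 : x ≤ 2 := by nlinarith
  have h3 : -2 ≤ x := by nlinarith
  interval_cases x <;> omega

lemma sysF : Sys F := qs_sys 1 0 (-2) one_pos (fun p hp h => by
    have h1 : (p : ℤ) ∣ 1 := h.1
    exact hp.one_lt.ne' (Nat.dvd_one.1 (by exact_mod_cast h1))) (fun h => by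
    have h1 := h.1
    revert h1
    decide) not_square

lemma noTrF : NoTr F := qs_noTr 1 0 (-2) one_pos

lemma roots_eq (p : ℕ) : roots p = nuB (Q F) p := by
  classical
  unfold roots nuB
  apply card_iff
  intro r _
  exact (Q_iff p r).symm

lemma prop_eq (q : ℕ) : prop q = RD (Q F) q := by
  unfold prop RD
  exact Finset.prod_congr rfl fun p _ => by rw [roots_eq]

lemma density_eq (X r q : ℕ) :
    density X r q = Vq (Qn (Q F) q) ⌊(X : ℝ) ^ (1 / (r : ℝ))⌋₊ := by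
  unfold density Vq
  rw [← Finset.filter_filter, Finset.prod_filter]
  unfold pz
  refine Finset.prod_congr rfl fun p hp => ?_
  by_cases hd : p ∣ q
  · rw [if_neg (by simpa using hd), nuB_Qn_dvd _ _ _ hd]
    simp
  · rw [if_pos hd, nuB_Qn_not _ _ _ hd, roots_eq]

lemma series_eq (X r : ℕ) : series X r = SS (Q F) 1 ⌊(X : ℝ) ^ (1 / (r : ℝ))⌋₊ := by
  unfold series SS pz
  refine Finset.prod_congr rfl fun p _ => ?_
  rw [roots_eq, pow_one]

lemma red_of (q a : ℕ) (h : IsCoprime ((a : ℤ) ^ 2 - 2) (q : ℤ)) : Red (Q F) q a := by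
  intro p hp hpq hd
  have h1 := h.isUnit_of_dvd' ((Q_iff p a).1 hd) (Int.natCast_dvd_natCast.2 hpq)
  exact (Nat.prime_iff_prime_int.1 hp).not_isUnit h1

lemma good_iff (X r q a m : ℕ) : Good X r (q * m + a) ↔
    Sf (Q (fq F q a)) ⌊(X : ℝ) ^ (1 / (r : ℝ))⌋₊ m := by
  unfold Good Sf
  constructor
  · intro h p hp hd
    rw [fq_Q, Q_iff] at hd
    have h3 : (p : ℝ) ≤ (X : ℝ) ^ (1 / (r : ℝ)) := (Nat.le_floor_iff (by positivity)).1 (mem_pz.1 hp).1
    linarith [h p (mem_pz.1 hp).2 hd]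
  · intro h p hp hd
    by_contra hlt
    exact h p (mem_pz.2 ⟨Nat.le_floor (not_lt.1 hlt), hp⟩) ((fq_Q F q a p m).2 ((Q_iff p _).2 hd))

open Classical in
/-- **Almost prime values of `n ^ 2 - 2` in arithmetic progressions.** Let `A, θ > 0` and `B` be given.
The following holds for all moduli `q ≤ X ^ A` with `prop q ≥ 1 / B` (for example, all prime moduli, if
`B = 2`), all classes `a` with `a ^ 2 - 2` prime to `q` and all large `X`, for the good terms `q m + a`
(all prime factors of `(q m + a) ^ 2 - 2` are larger than `X ^ (1 / r)`), with `V = density X r q`.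

(1) For all `ε > 0`, `x₀`, `l₀` and all `r ≥ r₀`: every interval `Z < m ≤ Z + Y` with `Y ≥ X ^ θ` contains
`Y V` good terms up to the factor `1 ± ε`, and the number of those, for which fewer than `l` of the `T`
preceding terms are good, is `Y V` times the probability that a Poisson variable of mean `T V` is less than
`l`, up to `ε Y V`, for all `T` if `l ≤ l₀`, and for all `l` if `T V ≤ x₀`.

(2) For all `r ≥ r₀` and any set `S` of good terms, for example all the terms with `(q m + a) ^ 2 - 2`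
prime, all but `ε Y V` of the elements of `S` in any interval `(u, u + Y]`, `X ^ θ ≤ Y ≤ X`, `Y ≤ u`, are
regular points of `S`.

(3) The density: `V * prop q * log X` is `r exp (-γ)` times the truncated constant of Bateman and Horn,
asymptotically, uniformly in all `q ≤ X ^ A`.

(4) Terms with prime values are good. -/
theorem result (A θ B : ℝ) (hA : 0 < A) (hθ : 0 < θ) :
    (∀ (x₀ ε : ℝ) (l₀ : ℕ), 0 < ε → ∃ r₀ : ℕ, 2 ≤ r₀ ∧ ∀ r : ℕ, r₀ ≤ r → ∀ᶠ X : ℕ in atTop,
      ∀ q a : ℕ, 1 ≤ q → (q : ℝ) ≤ (X : ℝ) ^ A → (a : ℝ) ≤ (X : ℝ) ^ A →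
      IsCoprime ((a : ℤ) ^ 2 - 2) (q : ℤ) → 1 ≤ B * prop q → ∀ Z Y : ℕ, (X : ℝ) ^ θ ≤ Y →
      |(((Ioc Z (Z + Y)).filter (fun m => Good X r (q * m + a))).card : ℝ) - Y * density X r q| ≤
        ε * (Y * density X r q) ∧
      ∀ l T : ℕ, (l ≤ l₀ ∨ T * density X r q ≤ x₀) →
        |(((Ioc Z (Z + Y)).filter (fun m => Good X r (q * m + a) ∧
            ((Ico (m - T) m).filter (fun m' => Good X r (q * m' + a))).card < l)).card : ℝ) -
          Y * density X r q * ∑ j ∈ range l, poisson (T * density X r q) j| ≤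
          ε * (Y * density X r q)) ∧
    (∃ r₀ : ℕ, 2 ≤ r₀ ∧ ∀ r : ℕ, r₀ ≤ r → ∀ ε : ℝ, 0 < ε → ∃ c : ℝ, 0 < c ∧ ∀ δ : ℝ, 0 < δ →
      ∃ B₁ : ℕ, ∀ᶠ X : ℕ in atTop, ∀ q a : ℕ, 1 ≤ q → (q : ℝ) ≤ (X : ℝ) ^ A → (a : ℝ) ≤ (X : ℝ) ^ A →
      IsCoprime ((a : ℤ) ^ 2 - 2) (q : ℤ) → 1 ≤ B * prop q →
      ∀ u Y : ℕ, (X : ℝ) ^ θ ≤ Y → Y ≤ X → Y ≤ u → ∀ S : Set ℕ, (∀ m ∈ S, Good X r (q * m + a)) →
      (count (Irregular S (1 / density X r q) c δ B₁ Y) u (u + Y) : ℝ) ≤
        ε * (Y * density X r q)) ∧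
    (∀ (r : ℕ) (ε : ℝ), 2 ≤ r → 0 < ε → ∀ᶠ X : ℕ in atTop, ∀ q : ℕ, 1 ≤ q → (q : ℝ) ≤ (X : ℝ) ^ A →
      |density X r q * prop q * Real.log X -
        r * Real.exp (-Real.eulerMascheroniConstant) * series X r| ≤ ε * series X r) ∧
    (∀ X r n : ℕ, ((n : ℤ) ^ 2 - 2).natAbs.Prime →
      (X : ℝ) ^ (1 / (r : ℝ)) < (((n : ℤ) ^ 2 - 2).natAbs : ℝ) → Good X r n) := by
  refine ⟨?_, ?_, ?_, ?_⟩
  · intro x₀ ε l₀ hε
    obtain ⟨r0, hr0, h⟩ := gap_prog F sysF noTrF le_rfl A θ hA hθ (max l₀ 1) x₀ ε hε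
    refine ⟨r0, hr0, fun r hr => ?_⟩
    filter_upwards [h r hr B] with X hX
    intro q a hq hqX haX ha hB Z Y hY
    have hgap' : ∀ l T : ℕ, (l ≤ max l₀ 1 ∨ T * density X r q ≤ x₀) →
        |(((Ioc Z (Z + Y)).filter (fun m => Good X r (q * m + a) ∧
            ((Ico (m - T) m).filter (fun m' => Good X r (q * m' + a))).card < l)).card : ℝ) -
          Y * density X r q * ∑ j ∈ range l, poisson (T * density X r q) j| ≤
          ε * (Y * density X r q) := by
      intro l T hl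
      rw [density_eq] at hl ⊢
      have h3 := hX q a hq hqX haX (red_of q a ha) (Or.inr (by rw [← prop_eq]; exact hB)) Z Y hY l T hl
      have h4 : Pk (Sf (Q (fq F q a)) ⌊(X : ℝ) ^ (1 / (r : ℝ))⌋₊) l T Z Y =
          ((Ioc Z (Z + Y)).filter (fun m => Good X r (q * m + a) ∧
            ((Ico (m - T) m).filter (fun m' => Good X r (q * m' + a))).card < l)).card := by
        unfold Pk
        apply card_iff
        intro n _
        rw [good_iff]
        have h5 : ((Ico (n - T) n).filter (Sf (Q (fq F q a)) ⌊(X : ℝ) ^ (1 / (r : ℝ))⌋₊)).card =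
            ((Ico (n - T) n).filter (fun m' => Good X r (q * m' + a))).card := by
          apply card_iff
          intro m _
          rw [good_iff]
        rw [h5]
      rw [h4] at h3
      exact h3
    refine ⟨?_, fun l T hl => hgap' l T (hl.imp_left fun h => h.trans (le_max_left _ _))⟩
    have h3 := hgap' 1 0 (Or.inl (le_max_right _ _))
    have h4 : ((Ioc Z (Z + Y)).filter (fun m => Good X r (q * m + a) ∧
          ((Ico (m - 0) m).filter (fun m' => Good X r (q * m' + a))).card < 1)).card =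
        ((Ioc Z (Z + Y)).filter (fun m => Good X r (q * m + a))).card := by
      apply card_iff
      intro n _
      simp
    rw [h4] at h3
    simpa [poisson] using h3
  · obtain ⟨r0, hr0, h⟩ := her_prog F sysF noTrF le_rfl A θ hA hθ
    refine ⟨r0, hr0, fun r hr ε hε => ?_⟩
    obtain ⟨c, hc, h1⟩ := h r hr B ε hε
    refine ⟨c, hc, fun δ hδ => ?_⟩
    obtain ⟨B1, h2⟩ := h1 δ hδ
    refine ⟨B1, ?_⟩
    filter_upwards [h2] with X hX
    intro q a hq hqX haX ha hB u Y hY hYX hYu S hS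
    rw [density_eq]
    exact hX q a hq hqX haX (red_of q a ha) (Or.inr (by rw [← prop_eq]; exact hB)) u Y hY hYX hYu S
      (fun m hm => (good_iff X r q a m).1 (hS m hm))
  · intro r ε hr hε
    obtain ⟨c, hc, hper⟩ := exists_c F sysF
    filter_upwards [mean_gen c 1 A hA r hr ε hε] with X hX
    intro q hq hqX
    have h := hX (Q F) q hper (sys_adm F sysF) hq hqX
    rw [pow_one, pow_one, ← density_eq, ← prop_eq, ← series_eq] at h
    exact h
  · intro X r n hp hX p hpp hd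
    have h1 : p ∣ ((n : ℤ) ^ 2 - 2).natAbs := Int.natCast_dvd.1 hd
    rw [(Nat.prime_dvd_prime_iff_eq hpp hp).1 h1]
    exact hX

end Pool.Agent.Results.MP_0b748d_nt.GapLawsInProgressions
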