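import Pool.Agent.X119.Dig

set_option autoImplicit false

/-!
# Almost prime values `n ^ 2 - 2` at integers with restricted digits

There are `c > 0` and `r₀` such that for all `r ≥ r₀`, all bases `b` and all large `K` the following
holds for ALL choices of sets `A 0, ..., A (K - 1)` of digits with `∏ |A i| ≥ exp (- c K) b ^ K`: the
integers `n < b ^ K` whose `i`-th digit belongs to `A i` for all `i < K`, such that `n ^ 2 - 2` has
at most `r` prime factors, all larger than `n ^ (1 / r)`, have the expected order `∏ |A i| / K` (if the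
last digit can be chosen such that the value is coprime to the base), and at most `C ∏ |A i| / K` of the
integers `n` with these digits have a prime value `n ^ 2 - 2`.
-/

namespace Pool.Agent.Results.MP_0b748d_nt.PrescribedDigits

open Finset Filter
open Pool.Agent.Y816.PD (NA ND)

/-- `n ^ 2 - 2` has at most `r` prime factors (with multiplicity), all of them larger than
`n ^ (1 / r)`. -/
def Almost (r : ℕ) : Set ℕ :=
  {n | (∀ p : ℕ, p.Prime → (p : ℤ) ∣ (n : ℤ) ^ 2 - 2 → (n : ℝ) ^ (1 / (r : ℝ)) < (p : ℝ)) ∧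
    ((n : ℤ) ^ 2 - 2).natAbs.primeFactorsList.length ≤ r}

/-- The `n` for which `n ^ 2 - 2` is a prime. -/
def S : Set ℕ := {n | ∃ q : ℕ, q.Prime ∧ (n : ℤ) ^ 2 - 2 = q}

lemma val (m : ℕ) : (1 : ℤ) * (m : ℤ) ^ 2 + 0 * m + (-2) = (m : ℤ) ^ 2 - 2 := by ring

/-- **Restricted digits.** -/
theorem result :
    ∃ c : ℝ, 0 < c ∧ ∃ r₀ : ℕ, 2 ≤ r₀ ∧ ∀ r : ℕ, r₀ ≤ r → ∀ b : ℕ, 2 ≤ b → ∃ κ C : ℝ, 0 < κ ∧ 0 < C ∧
      ∀ᶠ K : ℕ in atTop, ∀ A : ℕ → Finset ℕ, (∀ i < K, A i ⊆ range b) →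
        (b : ℝ) ^ K ≤ Real.exp (c * K) * NA K A →
        ((∃ d ∈ A 0, IsCoprime ((d : ℤ) ^ 2 - 2) (b : ℤ)) →
          κ * NA K A / (K : ℝ) ≤ ND b K A (Almost r)) ∧
        (ND b K A S : ℝ) ≤ C * NA K A / (K : ℝ) := by
  obtain ⟨c, hc, r₀, hr₀, h⟩ := Pool.Agent.Y816.PD.digits_quad 1 0 (-2) (by norm_num)
    (fun p hp h => by
      have h2 : p ∣ 1 := by exact_mod_cast h.1
      exact hp.one_lt.ne' (Nat.dvd_one.1 h2))
    (by
      rintro ⟨x, hx⟩
      have h1 : x ≤ 3 := by nlinarith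
      have h2 : -3 ≤ x := by nlinarith
      interval_cases x <;> omega)
    (fun p hp => ⟨1, fun h => by
      rw [val] at h
      have h1 : (p : ℤ) ∣ 1 := by
        have h2 : ((1 : ℕ) : ℤ) ^ 2 - 2 = -1 := by norm_num
        rw [h2, dvd_neg] at h
        exact h
      have h2 : p ∣ 1 := by exact_mod_cast h1
      exact hp.one_lt.ne' (Nat.dvd_one.1 h2)⟩)
    (fun r => {m | ∀ p : ℕ, p.Prime → (p : ℤ) ∣ 1 * (m : ℤ) ^ 2 + 0 * m + (-2) →
      (m : ℝ) ^ (1 / (r : ℝ)) < (p : ℝ)})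
    Almost (fun r m _ h => h)
    (fun r m hr h1 h2 => by
      rw [val] at h2
      exact ⟨fun p hp hd => h1 p hp (by rw [val]; exact hd), h2⟩)
    (fun b d => IsCoprime ((d : ℤ) ^ 2 - 2) (b : ℤ))
    (fun b d hb h p hp hpb hd => by
      rw [val] at hd
      have h2 : (p : ℤ) ∣ 1 := by
        obtain ⟨x, y, hxy⟩ := h
        rw [← hxy]
        exact dvd_add (Dvd.dvd.mul_left hd _) (Dvd.dvd.mul_left (Int.natCast_dvd_natCast.2 hpb) _)
      have h3 : p ∣ 1 := by exact_mod_cast h2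
      exact hp.one_lt.ne' (Nat.dvd_one.1 h3))
  simp only [pow_one] at h
  refine ⟨c, hc, r₀, hr₀, fun r hr b hb => ?_⟩
  obtain ⟨κ, C, hκ, hC, h1⟩ := h r hr b hb
  refine ⟨κ, C, hκ, hC, ?_⟩
  filter_upwards [h1] with K hK A hA hprod
  obtain ⟨h2, h3⟩ := hK A hA hprod
  refine ⟨h2, (Pool.Agent.X119.Dig.nd_mono b K A ?_).trans h3⟩
  rintro n ⟨q, hq, hn⟩ p hp hd
  rw [val, hn] at hd
  have hd' : p ∣ q := Int.natCast_dvd_natCast.1 hd
  have hr2 : 2 ≤ r := hr₀.trans hr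
  have h5 : 2 ≤ n := by
    by_contra hc2
    have h6 : n = 0 ∨ n = 1 := by omega
    rcases h6 with rfl | rfl <;> norm_num at hn <;> omega
  by_cases h6 : n = 2
  · subst h6
    have h7 : q = 2 := by norm_num at hn; omega
    rw [h7] at hq hd'
    exact Pool.Agent.X119.Dig.prime_rough hr2 le_rfl hq le_rfl hp hd'
  · refine Pool.Agent.X119.Dig.prime_rough hr2 h5 hq ?_ hp hd'
    have h8 : (n : ℤ) ≤ q := by
      rw [← hn]
      have h9 : (3 : ℤ) ≤ n := by exact_mod_cast (by omega : 3 ≤ n)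
      nlinarith
    exact_mod_cast h8

end Pool.Agent.Results.MP_0b748d_nt.PrescribedDigits
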