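import Pool.Agent.X119.Win

set_option autoImplicit false

/-!
# Almost prime values `n ^ 2 - 2` in all windows around a positive proportion of the integers of every
short interval

Let `0 < θ ≤ 1`. There are `r`, `c₁, c₂, K, κ > 0` and for every `δ > 0` a `B` such that for all large `X` and
all `X ^ θ ≤ Y ≤ X` at least `κ Y` of the integers `n` in `(X, X + Y]` are regular: every interval `(a, b]`
with `a ≤ n ≤ b` and `K log X ≤ b - a ≤ Y` contains between `c₁ (b - a) / log X` and `c₂ (b - a) / log X`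
integers `m` for which `m ^ 2 - 2` has at most `r` prime factors, all larger than `X ^ (1 / r)`, and at all but
at most `B` of the dyadic scales between `log X` and `Y` these integers have a constant density around `n` up
to `δ`.
-/

namespace Pool.Agent.Results.MP_0b748d_nt.RegularWindows

open Finset Filter
open Pool.Agent.X119.Win (Order badScales)

/-- `m ^ 2 - 2` has at most `r` prime factors (with multiplicity), all of them larger than
`X ^ (1 / r)`. -/
def Almost (r X m : ℕ) : Prop :=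
  ((m : ℤ) ^ 2 - 2).natAbs.primeFactorsList.length ≤ r ∧
    ∀ p : ℕ, p.Prime → (p : ℤ) ∣ (m : ℤ) ^ 2 - 2 → (X : ℝ) ^ (1 / (r : ℝ)) < (p : ℝ)

lemma val (m : ℕ) : (1 : ℤ) * (m : ℤ) ^ 2 + 0 * m + (-2) = (m : ℤ) ^ 2 - 2 := by ring

open Classical in
/-- **Regular windows in short intervals.** -/
theorem result (θ : ℝ) (hθ : 0 < θ) (hθ1 : θ ≤ 1) :
    ∃ (r : ℕ) (c₁ c₂ K κ : ℝ), 0 < c₁ ∧ 0 < c₂ ∧ 0 < K ∧ 0 < κ ∧ ∀ δ : ℝ, 0 < δ → ∃ B : ℕ,
      ∀ᶠ X : ℕ in atTop, ∀ Y : ℕ, (X : ℝ) ^ θ ≤ Y → Y ≤ X →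
        κ * Y ≤ (((Finset.Ioc X (X + Y)).filter (fun n =>
          Order (Almost r X) 1 c₁ c₂ K X Y n ∧ badScales (Almost r X) 1 c₁ c₂ δ X Y n ≤ B)).card : ℝ) := by
  refine Pool.Agent.X119.Win.windows _ (Pool.Agent.X119.Win.sys_quad 1 0 (-2) one_pos
    (fun p hp h => by
      have h2 : p ∣ 1 := by exact_mod_cast h.1
      exact hp.one_lt.ne' (Nat.dvd_one.1 h2))
    (by
      rintro ⟨x, hx⟩
      have h1 : x ≤ 3 := by nlinarith
      have h2 : -3 ≤ x := by nlinarith
      interval_cases x <;> omega)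
    (fun p hp => ⟨1, fun h => by
      rw [val] at h
      have h1 : (p : ℤ) ∣ 1 := by
        have h2 : ((1 : ℕ) : ℤ) ^ 2 - 2 = -1 := by norm_num
        rw [h2, dvd_neg] at h
        exact h
      have h2 : p ∣ 1 := by exact_mod_cast h1
      exact hp.one_lt.ne' (Nat.dvd_one.1 h2)⟩)) Almost (fun r X m => ?_) 1 (Fintype.card_fin 1) θ hθ hθ1
  rw [← Pool.Agent.X119.Win.almost_quad 1 0 (-2) r X m]
  simp only [val]
  rfl

end Pool.Agent.Results.MP_0b748d_nt.RegularWindows
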