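import Pool.Agent.X50.LG.Sub

/-!
# Sumsets contained in the set of the integers at which an irreducible polynomial is prime

Let `f` be an irreducible polynomial of degree `d ≥ 1` with integer coefficients (for instance
`f = X^2 - 2`, `d = 2`), let `ε > 0` and `k ≥ 1`. There is `C` with the following property. Let
`A_1, …, A_k` be nonempty sets of positive integers, each in an interval of length `N` (anywhere),
such that `|f(a_1 + … + a_k)|` is prime for all `a_i ∈ A_i`. Then

* for every `r ≤ k`, every `r` of the sets include one of size at most `C N^(d / (d + r - 1) + ε)`; in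
  particular one of the `k` sets has at most `C N^(d / (d + k - 1) + ε)` elements;
* `|A_i| |A_j| ≤ C N (1 + log N)^2` for all `i ≠ j`.

For `f = X^2 - 2`: if all sums of elements of `k` sets are `n` with `n^2 - 2` prime (up to sign), then
the smallest of the sets has at most `C N^(2 / (k + 1) + ε)` elements.

Proof. Let `𝔓` be the set of the primes modulo which `f` has a root. By the prime ideal theorem for
the root field, whose degree-one primes over `p` are at most `d` in number and give roots of `f`, the
sum of `log p / p` over `p ∈ 𝔓`, `p ≤ Q`, is at least `(1/d - ε) log Q - C`. For `p ∈ 𝔓` the sumset of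
the (large elements of the) sets modulo `p` omits a root of `f`, so by the theorem of Cauchy and
Davenport the numbers of the residue classes have sum at most `p + k - 2`; by the inequality of the
harmonic and the arithmetic mean, the sum over `i` of `∑_{p ≤ Q} log p / |A_i mod p|` is at least
`k (1 + (k - 1)(1/d - ε)) log Q - C`, and Gallagher's larger sieve is applied to the set with the
largest sum. The second part is the large sieve in the product form for two sets.
-/

set_option autoImplicit false
set_option maxHeartbeats 4000000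
open Finset Polynomial

namespace Pool.Agent.Results.MP_0b748d_nt.SumsetsInPolynomialPrimes

theorem result (f : ℤ[X]) (hf : Irreducible (f.map (Int.castRingHom ℚ))) (k : ℕ) (ε : ℝ)
    (hε : 0 < ε) :
    ∃ C : ℝ, 0 < C ∧ ∀ N : ℕ, 1 ≤ N → ∀ (U : Fin k → ℕ) (A : Fin k → Finset ℕ),
      (∀ i, (A i).Nonempty) → (∀ i, A i ⊆ Ioc (U i) (U i + N)) →
      (∀ a : Fin k → ℕ, (∀ i, a i ∈ A i) → (f.eval (((∑ i, a i : ℕ)) : ℤ)).natAbs.Prime) →
      (∀ I : Finset (Fin k), I.Nonempty → ∃ i ∈ I, ((A i).card : ℝ) ≤
        C * (N : ℝ) ^ ((f.natDegree : ℝ) / ((f.natDegree : ℝ) + I.card - 1) + ε)) ∧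
      ∀ i j : Fin k, i ≠ j → ((A i).card : ℝ) * (A j).card ≤ C * N * (1 + Real.log N) ^ 2 := by
  obtain ⟨C₁, hC₁, h₁⟩ := Pool.Agent.X50.LG.min_sub f hf hε k
  obtain ⟨C₂, hC₂, h₂⟩ := Pool.Agent.X50.LG.pair_sub f hf k
  refine ⟨C₁ + C₂, by positivity, fun N hN U A hne hA hgood => ⟨fun I hI => ?_, fun i j hij => ?_⟩⟩
  · obtain ⟨i, hi, h⟩ := h₁ N hN U A hne hA hgood I hI
    refine ⟨i, hi, h.trans ?_⟩
    exact mul_le_mul_of_nonneg_right (by linarith) (by positivity)
  · refine (h₂ N hN U A hne hA hgood i j hij).trans ?_
    have hN1 : (1 : ℝ) ≤ N := by exact_mod_cast hN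
    refine mul_le_mul_of_nonneg_right ?_ (by positivity)
    exact mul_le_mul_of_nonneg_right (by linarith) (by positivity)

end Pool.Agent.Results.MP_0b748d_nt.SumsetsInPolynomialPrimes
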